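import Pool.Agent.U685.IN.Fin
import Pool.Agent.U141.IX.FAR
import Pool.Agent.U165.IX.PATH2
import Pool.Agent.U139.IX.UT
import Pool.Agent.U934.IX.CRX
import Pool.Agent.U765.IX.TILT
import Pool.Agent.U667.IX.DET

/-! # All parts together -/

set_option autoImplicit false

namespace Pool.Agent.U685.IN

theorem cKEY : S_KEY :=
  key Pool.Agent.U139.IX.t_UT Pool.Agent.U141.IX.t_FAR Pool.Agent.U934.IX.t_CRX
    Pool.Agent.U765.IX.t_TILT (Pool.Agent.U667.IX.t_DET Pool.Agent.U165.IX.t_PATH2)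

end Pool.Agent.U685.IN
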