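import Pool.Agent.U685.IN.Key

/-! # Consequences -/

set_option autoImplicit false
open MeasureTheory ProbabilityTheory Filter Set
open scoped ENNReal Topology Pointwise

namespace Pool.Agent.U685.IN

open Pool.Agent.N662.FP
open Pool.Agent.U874.FP

variable {Ω : Type} [MeasureSpace Ω] [IsProbabilityMeasure (volume : Measure Ω)]
  {X : Sym2 (ℤ × ℤ) → Ω → ℝ}

theorem not_one (hK : S_KEY) (hX : Iid X) {μ : Seminorm ℝ (ℝ × ℝ)}
    (hG : Good (fun ω v => D (env X ω) 0 v) μ) {κ e A : ℝ} (hκ : 4 / 5 < κ) (hκ1 : κ < 1)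
    (hA : 0 < A) (he : e < Real.exp (-1)) :
    ¬ ∀ v : ℤ × ℤ, (volume : Measure Ω).real
      {ω | μ (em v) + A * (1 + μ (em v)) ^ (1 - κ) ≤ D (env X ω) 0 v} ≤ e := by
  intro h
  obtain ⟨d, hd, hed⟩ := ex_d e he
  refine hK Ω X hX μ hG.norm κ A (2 * (1 + 1 / d) * A) (d / A) hκ hκ1 hA (by positivity) ⟨?_, ?_⟩
  · intro v u hu
    have hw := pos μ v A κ hA
    have h1 := (hG.one v _ d hw hd ((h v).trans hed)).1 u hu
    refine h1.trans (Real.exp_le_exp.2 ?_)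
    have hm : 0 < (1 + μ (em v)) ^ (1 - κ) := by
      have : 0 ≤ μ (em v) := apply_nonneg μ _
      positivity
    have h2 : d * u / (A * (1 + μ (em v)) ^ (1 - κ)) = d / A * u / (1 + μ (em v)) ^ (1 - κ) := by
      field_simp
    rw [h2]
    linarith
  · intro v
    have h1 := (hG.one v _ d (pos μ v A κ hA) hd ((h v).trans hed)).2
    refine h1.trans (le_of_eq ?_)
    ring

/-- the one-point form, all exponents -/
theorem one_all (hK : S_KEY) (hX : Iid X) {μ : Seminorm ℝ (ℝ × ℝ)}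
    (hG : Good (fun ω v => D (env X ω) 0 v) μ) (κ e C : ℝ) (hκ : 4 / 5 < κ)
    (he : e < Real.exp (-1)) : ∃ v : ℤ × ℤ, e < (volume : Measure Ω).real
      {ω | μ (em v) + C * (1 + μ (em v)) ^ (1 - κ) ≤ D (env X ω) 0 v} := by
  by_contra hcon
  push Not at hcon
  obtain ⟨κ1, h1, h2, h3⟩ : ∃ κ1 : ℝ, 4 / 5 < κ1 ∧ κ1 < 1 ∧ κ1 ≤ κ :=
    ⟨min κ (9 / 10), lt_min hκ (by norm_num), lt_of_le_of_lt (min_le_right _ _) (by norm_num),
      min_le_left _ _⟩
  refine not_one hK hX hG h1 h2 (show 0 < max C 1 from lt_max_of_lt_right one_pos) he fun v => ?_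
  refine (measureReal_mono (fun ω hω => ?_) (measure_ne_top _ _)).trans (hcon v)
  have hω' : μ (em v) + max C 1 * (1 + μ (em v)) ^ (1 - κ1) ≤ D (env X ω) 0 v := hω
  show μ (em v) + C * (1 + μ (em v)) ^ (1 - κ) ≤ D (env X ω) 0 v
  have hm : 0 ≤ μ (em v) := apply_nonneg μ _
  have h4 : (1 + μ (em v)) ^ (1 - κ) ≤ (1 + μ (em v)) ^ (1 - κ1) :=
    Real.rpow_le_rpow_of_exponent_le (by linarith) (by linarith)
  have h5 : 0 ≤ (1 + μ (em v)) ^ (1 - κ) := by positivity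
  have h6 : C * (1 + μ (em v)) ^ (1 - κ) ≤ max C 1 * (1 + μ (em v)) ^ (1 - κ1) :=
    (mul_le_mul_of_nonneg_right (le_max_left C 1) h5).trans
      (mul_le_mul_of_nonneg_left h4 (le_trans zero_le_one (le_max_right C 1)))
  linarith

/-- the mean of the positive part -/
theorem mean_all (hK : S_KEY) (hX : Iid X) {μ : Seminorm ℝ (ℝ × ℝ)}
    (hG : Good (fun ω v => D (env X ω) 0 v) μ) (κ C : ℝ) (hκ : 4 / 5 < κ) :
    ∃ v : ℤ × ℤ, C * (1 + μ (em v)) ^ (1 - κ) <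
      ∫ ω, max (D (env X ω) 0 v - μ (em v)) 0 ∂(volume : Measure Ω) := by
  obtain ⟨C1, hC1⟩ : ∃ C1 : ℝ, C1 = max C 1 := ⟨_, rfl⟩
  have hC1p : 0 < C1 := by rw [hC1]; exact lt_max_of_lt_right one_pos
  obtain ⟨v, hv⟩ := one_all hK hX hG κ (Real.exp (-2)) (C1 * Real.exp 2) hκ
    (Real.exp_lt_exp.2 (by norm_num))
  refine ⟨v, ?_⟩
  have hm : 0 ≤ μ (em v) := apply_nonneg μ _
  have hp : 0 < (1 + μ (em v)) ^ (1 - κ) := by positivity
  have hi : Integrable (fun ω => max (D (env X ω) 0 v - μ (em v)) 0) (volume : Measure Ω) :=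
    ((hG.int v).sub (integrable_const _)).pos_part
  obtain ⟨l, hl⟩ : ∃ l : ℝ, l = C1 * Real.exp 2 * (1 + μ (em v)) ^ (1 - κ) := ⟨_, rfl⟩
  have hl0 : 0 < l := by rw [hl]; positivity
  have h5 := mul_meas_ge_le_integral_of_nonneg (μ := (volume : Measure Ω))
    (f := fun ω => max (D (env X ω) 0 v - μ (em v)) 0)
    (Eventually.of_forall fun ω => le_max_right _ _) hi l
  have h6 : (volume : Measure Ω).real {ω | μ (em v) + l ≤ D (env X ω) 0 v} ≤
      (volume : Measure Ω).real {ω | l ≤ max (D (env X ω) 0 v - μ (em v)) 0} := by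
    refine measureReal_mono (fun ω hω => ?_) (measure_ne_top _ _)
    have h7 : μ (em v) + l ≤ D (env X ω) 0 v := hω
    show l ≤ max (D (env X ω) 0 v - μ (em v)) 0
    exact le_max_of_le_left (by linarith)
  rw [← hl] at hv
  have h7 : l * Real.exp (-2) < ∫ ω, max (D (env X ω) 0 v - μ (em v)) 0 ∂(volume : Measure Ω) :=
    lt_of_lt_of_le (mul_lt_mul_of_pos_left (hv.trans_le h6) hl0) h5
  have h8 : l * Real.exp (-2) = C1 * (1 + μ (em v)) ^ (1 - κ) := by
    rw [hl]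
    have : Real.exp 2 * Real.exp (-2) = 1 := by rw [← Real.exp_add]; norm_num
    calc C1 * Real.exp 2 * (1 + μ (em v)) ^ (1 - κ) * Real.exp (-2)
        = C1 * (1 + μ (em v)) ^ (1 - κ) * (Real.exp 2 * Real.exp (-2)) := by ring
      _ = _ := by rw [this, mul_one]
  rw [h8] at h7
  refine lt_of_le_of_lt (mul_le_mul_of_nonneg_right ?_ hp.le) h7
  rw [hC1]
  exact le_max_left _ _

/-- the inner events grow with the exponent -/
theorem bad_mono (μ : Seminorm ℝ (ℝ × ℝ)) (T : Ω → ℤ × ℤ → ℝ) {κ κ' t : ℝ} (h0 : 0 < κ')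
    (h : κ' ≤ κ) (ht : 1 < t) : Bad T μ κ' t ⊆ Bad T μ κ t := by
  intro ω hω hsub
  apply hω
  refine Set.Subset.trans ?_ hsub
  have ht0 : 0 < t := by linarith
  have h1 : t ^ (-κ) ≤ t ^ (-κ') := Real.rpow_le_rpow_of_exponent_le ht.le (by linarith)
  have h2 : t ^ (-κ') < 1 := Real.rpow_lt_one_of_one_lt_of_neg ht (by linarith)
  have h3 : 0 < (1 - t ^ (-κ')) * t := mul_pos (by linarith) ht0
  have h4 : (1 - t ^ (-κ')) * t ≤ (1 - t ^ (-κ)) * t :=
    mul_le_mul_of_nonneg_right (by linarith) ht0.le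
  have h5 : 0 < (1 - t ^ (-κ)) * t := h3.trans_le h4
  intro x hx
  rw [Set.mem_smul_set_iff_inv_smul_mem₀ h3.ne', Set.mem_ofPred_eq, map_smul_eq_mul,
    Real.norm_of_nonneg (inv_nonneg.2 h3.le), ← div_eq_inv_mul, div_le_one h3] at hx
  rw [Set.mem_smul_set_iff_inv_smul_mem₀ h5.ne', Set.mem_ofPred_eq, map_smul_eq_mul,
    Real.norm_of_nonneg (inv_nonneg.2 h5.le), ← div_eq_inv_mul, div_le_one h5]
  exact hx.trans h4

/-- the probability of the inner event does not stay below a constant smaller than `1/e` -/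
theorem not_bad (hK : S_KEY) (hX : Iid X) {μ : Seminorm ℝ (ℝ × ℝ)}
    (hG : Good (fun ω v => D (env X ω) 0 v) μ) (κ e : ℝ) (hκ : 4 / 5 < κ)
    (he : e < Real.exp (-1)) : ∃ᶠ t : ℝ in atTop, e < (volume : Measure Ω).real
      (Bad (fun ω v => D (env X ω) 0 v) μ κ t) := by
  by_contra hcon
  rw [Filter.not_frequently] at hcon
  obtain ⟨κ1, h1, h2, h3⟩ : ∃ κ1 : ℝ, 4 / 5 < κ1 ∧ κ1 < 1 ∧ κ1 ≤ κ :=
    ⟨min κ (9 / 10), lt_min hκ (by norm_num), lt_of_le_of_lt (min_le_right _ _) (by norm_num),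
      min_le_left _ _⟩
  obtain ⟨A, hA, hh⟩ := cDD2 Ω (fun ω v => D (env X ω) 0 v) μ hG.norm hG.int κ1
    (max e (Real.exp (-2))) (by linarith) h2 (lt_max_of_lt_right (Real.exp_pos _)) (by
      filter_upwards [hcon, eventually_gt_atTop (1 : ℝ)] with t ht ht1
      refine le_trans ?_ ((not_lt.1 ht).trans (le_max_left _ _))
      exact measureReal_mono (bad_mono μ _ (by linarith) h3 ht1) (measure_ne_top _ _))
  exact not_one hK hX hG h1 h2 hA (max_lt he (Real.exp_lt_exp.2 (by norm_num))) hh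

/-- no polynomial rate -/
theorem not_bigO (hK : S_KEY) (hX : Iid X) {μ : Seminorm ℝ (ℝ × ℝ)}
    (hG : Good (fun ω v => D (env X ω) 0 v) μ) (κ q : ℝ) (hκ : 4 / 5 < κ) (hq : 0 < q) :
    ¬ Asymptotics.IsBigO atTop (fun t : ℝ => (volume : Measure Ω).real
      (Bad (fun ω v => D (env X ω) 0 v) μ κ t)) (fun t : ℝ => t ^ (-q)) := by
  intro h
  have h3 : Tendsto (fun t : ℝ => t ^ (-q)) atTop (𝓝 0) := tendsto_rpow_neg_atTop hq
  have h4 := h.trans_tendsto h3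
  have h5 := h4.eventually (gt_mem_nhds (by norm_num : (0 : ℝ) < 1 / 8))
  obtain ⟨t, ht1, ht2⟩ := ((not_bad hK hX hG κ (1 / 8) hκ eighth).and_eventually h5).exists
  linarith

end Pool.Agent.U685.IN
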