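import Pool.Agent.U685.IN.Stm

/-! # Assembly -/

set_option autoImplicit false
set_option maxHeartbeats 1000000
open MeasureTheory ProbabilityTheory Filter Set
open scoped ENNReal Topology Pointwise

namespace Pool.Agent.U685.IN

open Pool.Agent.N662.FP
open Pool.Agent.U874.FP
open U874.FL (Fd Fd_card touch)

theorem pw {s t : ℝ} (h : s < t) (A : ℝ) : ∀ᶠ R : ℝ in atTop, A * R ^ s ≤ R ^ t := by
  have h1 := (tendsto_rpow_atTop (show 0 < t - s by linarith)).eventually (eventually_ge_atTop A)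
  filter_upwards [h1, eventually_gt_atTop 0] with R h2 hR
  have e : R ^ t = R ^ (t - s) * R ^ s := by
    rw [← Real.rpow_add hR]
    congr 1
    ring
  rw [e]
  exact mul_le_mul_of_nonneg_right h2 (Real.rpow_nonneg hR.le _)

variable {Ω : Type} [MeasureSpace Ω] [IsProbabilityMeasure (volume : Measure Ω)]
  {X : Sym2 (ℤ × ℤ) → Ω → ℝ}

/-- Markov's inequality for the lower deviations -/
theorem markov (hX : Iid X) {μ : Seminorm ℝ (ℝ × ℝ)} {κ A B b : ℝ} (hT : Tl X μ κ A B b) (v : V)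
    {l : ℝ} (hl : 0 < l) :
    (volume : Measure Ω).real {ω | D (env X ω) 0 v ≤ μ (em v) - l} ≤
      B * (1 + μ (em v)) ^ (1 - κ) / l := by
  have hint : Integrable (fun ω => |D (env X ω) 0 v - μ (em v)|) (volume : Measure Ω) :=
    ((cINT Ω X hX 0 v).sub (integrable_const _)).abs
  have h1 := mul_meas_ge_le_integral_of_nonneg (μ := (volume : Measure Ω))
    (ae_of_all _ fun ω => abs_nonneg (D (env X ω) 0 v - μ (em v))) hint l
  rw [le_div_iff₀ hl, mul_comm]
  refine le_trans (mul_le_mul_of_nonneg_left ?_ hl.le) (h1.trans (hT.mean v))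
  refine measureReal_mono (fun ω hω => ?_) (measure_ne_top _ _)
  have hω' : D (env X ω) 0 v ≤ μ (em v) - l := hω
  show l ≤ |D (env X ω) 0 v - μ (em v)|
  rw [abs_sub_comm]
  exact le_trans (by linarith) (le_abs_self _)

theorem ub7 (H Z A B C E F : Set Ω) :
    (volume : Measure Ω).real (H ∪ (Z ∪ (A ∪ (B ∪ (C ∪ (E ∪ F)))))) ≤
      (volume : Measure Ω).real H + (volume : Measure Ω).real Z + (volume : Measure Ω).real A +
      (volume : Measure Ω).real B + (volume : Measure Ω).real C + (volume : Measure Ω).real E +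
      (volume : Measure Ω).real F := by
  have u1 := measureReal_union_le (μ := (volume : Measure Ω)) H (Z ∪ (A ∪ (B ∪ (C ∪ (E ∪ F)))))
  have u2 := measureReal_union_le (μ := (volume : Measure Ω)) Z (A ∪ (B ∪ (C ∪ (E ∪ F))))
  have u3 := measureReal_union_le (μ := (volume : Measure Ω)) A (B ∪ (C ∪ (E ∪ F)))
  have u4 := measureReal_union_le (μ := (volume : Measure Ω)) B (C ∪ (E ∪ F))
  have u5 := measureReal_union_le (μ := (volume : Measure Ω)) C (E ∪ F)
  have u6 := measureReal_union_le (μ := (volume : Measure Ω)) E F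
  linarith only [u1, u2, u3, u4, u5, u6]

theorem key (hUT : S_UT) (hFAR : S_FAR) (hCRX : S_CRX) (hTILT : S_TILT) (hDET : S_DET) :
    S_KEY := by
  intro Ω _ _ X hX μ hμ κ A B b hκ hκ1 hA hb hT
  obtain ⟨p, q, m, hpq, hm, hpm, hle⟩ := touch μ hμ
  have hTo : Touch μ p q m := ⟨hpq, hm, hpm, hle⟩
  obtain ⟨δ, hδ⟩ : ∃ δ : ℝ, δ = (5 * κ / 4 - 1) / 3 := ⟨_, rfl⟩
  have hδ0 : 0 < δ := by rw [hδ]; linarith
  have hδ1 : δ ≤ 1 / 12 := by rw [hδ]; linarith
  obtain ⟨K, hK, hdet⟩ := hDET μ hμ p q m hTo κ δ hκ hκ1 hδ0 hδ1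
  have hK0 : 0 < K := by linarith
  have e1 := hUT Ω X hX μ hμ κ A B b δ (100 * K) (by linarith) hκ1 hA hb hδ0 (by positivity) hT
    (1 / 20) (by norm_num)
  have hKt : Tendsto (fun t : ℝ => K * t / 2) atTop atTop := by
    have : Tendsto (fun t : ℝ => (K / 2) * t) atTop atTop :=
      Tendsto.const_mul_atTop (by positivity) tendsto_id
    refine this.congr fun t => ?_
    ring
  have e2 := hKt.eventually (hFAR Ω X hX (1 / 20) (by norm_num))
  have e3 := hCRX Ω X hX μ hμ κ A B b δ K (by linarith) hκ1 hδ0 (by linarith) hK hT p q m hTo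
    (1 / 20) (by norm_num)
  have f1 := pw (show 1 - κ < 1 by linarith) (|B| * (2 * K) * (2000 / m))
  have f2 := pw hδ0 (400 * K)
  have f3 := pw (show (0 : ℝ) < 1 - κ / 4 + δ by linarith) 2
  have f4 := pw (show 1 - κ + δ < κ / 4 - δ by rw [hδ]; linarith) (16 / m)
  have f5 := pw (show 1 - κ < κ / 4 - δ by rw [hδ]; linarith) (|B| * (2 * K) * (320 / m))
  obtain ⟨t, ht1, hdet, e1, e2, e3, f1, f2, f3, f4, f5⟩ :=
    ((eventually_ge_atTop 1).and (hdet.and (e1.and (e2.and (e3.and (f1.and (f2.and (f3.and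
      (f4.and f5))))))))).exists
  have ht0 : 0 < t := by linarith
  obtain ⟨v, hv, hv1, hv2, S, hS, hmain⟩ := hdet
  rw [Real.rpow_zero, mul_one] at f2 f3
  rw [Real.rpow_one] at f1
  obtain ⟨ε, hε⟩ : ∃ ε : ℝ, ε = t ^ (-(1 - κ / 4 + δ)) := ⟨_, rfl⟩
  have hε0 : 0 < ε := by rw [hε]; positivity
  have hε1 : ε ≤ 1 / 2 := by
    rw [hε, Real.rpow_neg ht0.le, one_div]
    exact inv_anti₀ (by norm_num) f3
  have hεt : ε * t = t ^ (κ / 4 - δ) := by
    rw [hε]
    nth_rewrite 2 [← Real.rpow_one t]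
    rw [← Real.rpow_add ht0]
    congr 1
    ring
  have hcard : 2 * ((Fd S).card : ℝ) * ε ^ 2 ≤ 2 := by
    have h1 : ((Fd S).card : ℝ) ≤ 4 * S.card := by exact_mod_cast Fd_card S
    have h2 : ((Fd S).card : ℝ) ≤ 400 * K * (t * t ^ (1 - κ / 2 + δ)) := by linarith
    have h3 : (t * t ^ (1 - κ / 2 + δ)) * ε ^ 2 = t ^ (-δ) := by
      rw [hε, ← Real.rpow_natCast, ← Real.rpow_mul ht0.le]
      nth_rewrite 1 [← Real.rpow_one t]
      rw [← Real.rpow_add ht0, ← Real.rpow_add ht0]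
      congr 1
      push_cast
      ring
    have h4 : 400 * K * t ^ (-δ) ≤ 1 := by
      rw [Real.rpow_neg ht0.le, ← div_eq_mul_inv, div_le_one (by positivity)]
      exact f2
    have h5 : ((Fd S).card : ℝ) * ε ^ 2 ≤ 400 * K * (t * t ^ (1 - κ / 2 + δ)) * ε ^ 2 :=
      mul_le_mul_of_nonneg_right h2 (by positivity)
    have h6 : 400 * K * (t * t ^ (1 - κ / 2 + δ)) * ε ^ 2 = 400 * K * t ^ (-δ) := by
      rw [← h3]; ring
    linarith
  -- the mean deviation at `v`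
  have hμv : 0 ≤ μ (em v) := apply_nonneg μ _
  have hM : B * (1 + μ (em v)) ^ (1 - κ) ≤ |B| * (2 * K) * t ^ (1 - κ) := by
    have h1 : (1 + μ (em v)) ^ (1 - κ) ≤ (2 * K * t) ^ (1 - κ) := by
      refine Real.rpow_le_rpow (by linarith) ?_ (by linarith)
      nlinarith
    have h2 : (2 * K * t) ^ (1 - κ) = (2 * K) ^ (1 - κ) * t ^ (1 - κ) :=
      Real.mul_rpow (by positivity) ht0.le
    have h3 : (2 * K) ^ (1 - κ) ≤ 2 * K := by
      nth_rewrite 2 [← Real.rpow_one (2 * K)]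
      exact Real.rpow_le_rpow_of_exponent_le (by linarith) (by linarith)
    have h4 : 0 ≤ (1 + μ (em v)) ^ (1 - κ) := by positivity
    calc B * (1 + μ (em v)) ^ (1 - κ) ≤ |B| * (1 + μ (em v)) ^ (1 - κ) :=
          mul_le_mul_of_nonneg_right (le_abs_self B) h4
      _ ≤ |B| * ((2 * K) * t ^ (1 - κ)) := by
          refine mul_le_mul_of_nonneg_left ?_ (abs_nonneg _)
          rw [h2] at h1
          exact h1.trans (mul_le_mul_of_nonneg_right h3 (by positivity))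
      _ = _ := by ring
  have hD : ∀ l : ℝ, 0 < l → |B| * (2 * K) * t ^ (1 - κ) * 20 ≤ l →
      (volume : Measure Ω).real {ω | D (env X ω) 0 v ≤ μ (em v) - l} ≤ 1 / 20 := by
    intro l hl h
    refine (markov hX hT v hl).trans ?_
    rw [div_le_iff₀ hl]
    linarith
  have g2 : (volume : Measure Ω).real {ω | D (env X ω) 0 v ≤ μ (em v) - m / 100 * t} ≤ 1 / 20 := by
    refine hD _ (by positivity) ?_
    have h1 : |B| * (2 * K) * t ^ (1 - κ) * 20 =
        (|B| * (2 * K) * (2000 / m) * t ^ (1 - κ)) * (m / 100) := by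
      field_simp
      ring
    rw [h1]
    have := mul_le_mul_of_nonneg_right f1 (show 0 ≤ m / 100 by positivity)
    linarith
  have hs1 : 1 ≤ t ^ (1 - κ + δ) := Real.one_le_rpow ht1 (by linarith)
  have hc : t ^ (1 - κ + δ) + 1 ≤ ε * (m / 8 * t) := by
    have h1 : ε * (m / 8 * t) = m / 8 * t ^ (κ / 4 - δ) := by rw [← hεt]; ring
    rw [h1]
    have h2 := mul_le_mul_of_nonneg_left f4 (show 0 ≤ m / 8 by positivity)
    have h3 : m / 8 * (16 / m * t ^ (1 - κ + δ)) = 2 * t ^ (1 - κ + δ) := by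
      field_simp
      ring
    linarith
  have gE : (volume : Measure Ω).real {ω | D (env X ω) 0 v ≤ μ (em v) - ε * (m / 8 * t)} ≤
      1 / 40 := by
    refine (markov hX hT v (by positivity)).trans ?_
    rw [div_le_iff₀ (by positivity)]
    have h1 : ε * (m / 8 * t) = m / 8 * t ^ (κ / 4 - δ) := by rw [← hεt]; ring
    rw [h1]
    have h2 := mul_le_mul_of_nonneg_left f5 (show 0 ≤ m / 320 by positivity)
    have h3 : m / 320 * (|B| * (2 * K) * (320 / m) * t ^ (1 - κ)) =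
        |B| * (2 * K) * t ^ (1 - κ) := by
      field_simp
    linarith
  -- the good event
  obtain ⟨c, hcdef⟩ : ∃ c : ℝ, c = μ (em v) + t ^ (1 - κ + δ) + 1 - ε * (m / 4 * t) := ⟨_, rfl⟩
  obtain ⟨E, hE⟩ : ∃ E : Set (Sym2 V → ℝ), E = {x | D (fun e => max (x e) 0) 0 v ≤ c} := ⟨_, rfl⟩
  have hEm : MeasurableSet E := by
    rw [hE]
    exact measurableSet_le (cME 0 v) measurable_const
  obtain ⟨G1, hG1⟩ : ∃ G1 : Set Ω, G1 = {ω | ∀ a c : V, Bx (100 * K * t) a → Bx (100 * K * t) c →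
      D (env X ω) a c < μ (em (c - a)) + t ^ (1 - κ + δ)} := ⟨_, rfl⟩
  obtain ⟨G2, hG2⟩ : ∃ G2 : Set Ω, G2 = {ω | μ (em v) - m / 100 * t < D (env X ω) 0 v} := ⟨_, rfl⟩
  obtain ⟨G3, hG3⟩ : ∃ G3 : Set Ω, G3 = {ω | ∀ z : V, ¬ Bx (K * t / 2) z →
      K * t / 2 / 25 < D (env X ω) 0 z} := ⟨_, rfl⟩
  obtain ⟨G4, hG4⟩ : ∃ G4 : V → ℤ → Set Ω, G4 = fun a s => {ω | ∀ z : V, Bx (K * t) z →
      t / 5 ≤ ht p q z → ht p q z ≤ 4 * t / 5 → t ^ (1 - κ / 2 + δ) ≤ |lat p q z| →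
      m * ht p q z + t ^ (1 - κ + δ) < D (env X ω) a (a + s • z)} := ⟨_, rfl⟩
  obtain ⟨H, hH⟩ : ∃ H : Set Ω, H = {ω | sc (Fd S) ε (env X ω) ∈ E} := ⟨_, rfl⟩
  have p1 : (volume : Measure Ω).real G1ᶜ ≤ 1 / 20 := by
    rw [hG1]
    exact e1
  have p2 : (volume : Measure Ω).real G2ᶜ ≤ 1 / 20 := by
    refine (measureReal_mono (fun ω hω => ?_) (measure_ne_top _ _)).trans g2
    rw [hG2] at hω
    have hω' : ¬ (μ (em v) - m / 100 * t < D (env X ω) 0 v) := hω
    exact not_lt.1 hω'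
  have p3 : (volume : Measure Ω).real G3ᶜ ≤ 1 / 20 := by
    rw [hG3]
    exact e2
  have p4 : ∀ (a : V) (s : ℤ), Bx (K * t) a → (s = 1 ∨ s = -1) →
      (volume : Measure Ω).real (G1 ∩ (G4 a s)ᶜ) ≤ 1 / 20 := by
    intro a s ha hs
    rw [hG1, hG4]
    exact e3 a s ha hs
  have hB0 : Bx (K * t) 0 := by
    constructor
    · simp only [Prod.fst_zero, Int.cast_zero, abs_zero]; positivity
    · simp only [Prod.snd_zero, Int.cast_zero, abs_zero]; positivity
  obtain ⟨Z, hZ⟩ : ∃ Z : Set Ω, Z = {ω | ¬ ∀ e, 0 ≤ env X ω e} := ⟨_, rfl⟩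
  have p0 : (volume : Measure Ω).real Z = 0 := by
    have := ae_iff.1 (cAE Ω X hX)
    rw [hZ, measureReal_def, this, ENNReal.toReal_zero]
  have hcover : (Set.univ : Set Ω) ⊆ H ∪ (Z ∪ (G1ᶜ ∪ (G2ᶜ ∪ (G3ᶜ ∪ ((G1 ∩ (G4 0 1)ᶜ) ∪
      (G1 ∩ (G4 v (-1))ᶜ)))))) := by
    intro ω _
    by_contra hcon
    simp only [Set.mem_union, not_or] at hcon
    obtain ⟨h0, h1, h2, h3, h4, h5, h6⟩ := hcon
    have k1 : ω ∈ G1 := by
      by_contra h
      exact h2 h
    have k2 : ω ∈ G2 := by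
      by_contra h
      exact h3 h
    have k3 : ω ∈ G3 := by
      by_contra h
      exact h4 h
    have k4 : ω ∈ G4 0 1 := by
      by_contra h
      exact h5 ⟨k1, h⟩
    have k5 : ω ∈ G4 v (-1) := by
      by_contra h
      exact h6 ⟨k1, h⟩
    have k0 : ∀ e, 0 ≤ env X ω e := by
      by_contra h
      apply h1
      rw [hZ]
      exact h
    rw [hG1] at k1
    rw [hG2] at k2
    rw [hG3] at k3
    rw [hG4] at k4 k5
    have hres := hmain (env X ω) k0 k1 k2 k3 k4 k5 ε hε0.le (by linarith)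
    apply h0
    rw [hH, hE]
    show D (fun e => max (sc (Fd S) ε (env X ω) e) 0) 0 v ≤ c
    have hnn : (fun e => max (sc (Fd S) ε (env X ω) e) 0) = sc (Fd S) ε (env X ω) := by
      funext e
      refine max_eq_left ?_
      unfold sc
      split_ifs
      · exact mul_nonneg (by linarith) (k0 e)
      · exact k0 e
    rw [hnn, hcdef]
    exact hres
  have hH1 : 3 / 4 ≤ (volume : Measure Ω).real H := by
    have h1 : (1 : ℝ) ≤ (volume : Measure Ω).real (H ∪ (Z ∪ (G1ᶜ ∪ (G2ᶜ ∪ (G3ᶜ ∪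
        ((G1 ∩ (G4 0 1)ᶜ) ∪ (G1 ∩ (G4 v (-1))ᶜ))))))) := by
      have := measureReal_mono (μ := (volume : Measure Ω)) hcover (measure_ne_top _ _)
      rwa [probReal_univ] at this
    have u1 := ub7 H Z G1ᶜ G2ᶜ G3ᶜ (G1 ∩ (G4 0 1)ᶜ) (G1 ∩ (G4 v (-1))ᶜ)
    have u7 := p4 0 1 hB0 (Or.inl rfl)
    have u8 := p4 v (-1) hv (Or.inr rfl)
    linarith only [h1, u1, u7, u8, p0, p1, p2, p3]
  have htilt := hTILT Ω X hX (Fd S) ε hε0.le hε1 E hEm
  have hEle : (volume : Measure Ω).real {ω | env X ω ∈ E} ≤ 1 / 40 := by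
    refine le_trans ?_ gE
    have hsub : {ω | env X ω ∈ E} ⊆ Z ∪ {ω | D (env X ω) 0 v ≤ μ (em v) - ε * (m / 8 * t)} := by
      intro ω hω
      by_cases h : ∀ e, 0 ≤ env X ω e
      · right
        rw [hE] at hω
        have h1 : D (fun e => max (env X ω e) 0) 0 v ≤ c := hω
        have h2 : (fun e => max (env X ω e) 0) = env X ω := by
          funext e
          exact max_eq_left (h e)
        rw [h2] at h1
        show D (env X ω) 0 v ≤ μ (em v) - ε * (m / 8 * t)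
        have h3 : ε * (m / 4 * t) = 2 * (ε * (m / 8 * t)) := by ring
        rw [hcdef, h3] at h1
        linarith
      · left
        rw [hZ]
        exact h
    refine (measureReal_mono hsub (measure_ne_top _ _)).trans ((measureReal_union_le _ _).trans ?_)
    rw [p0, zero_add]
  have hexp : Real.exp (2 * ((Fd S).card : ℝ) * ε ^ 2) ≤ Real.exp 2 := Real.exp_le_exp.2 hcard
  have he2 : Real.exp 2 < 8 := by
    have h1 : Real.exp 2 = Real.exp 1 * Real.exp 1 := by rw [← Real.exp_add]; norm_num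
    have h2 := Real.exp_one_lt_d9
    have h3 := Real.exp_pos 1
    rw [h1]
    nlinarith
  have hHdef : (volume : Measure Ω).real {ω | sc (Fd S) ε (env X ω) ∈ E} =
      (volume : Measure Ω).real H := by rw [hH]
  rw [hHdef] at htilt
  have h1 : (3 / 4 : ℝ) ^ 2 ≤ ((volume : Measure Ω).real H) ^ 2 :=
    pow_le_pow_left₀ (by norm_num) hH1 2
  have h2 : Real.exp (2 * ((Fd S).card : ℝ) * ε ^ 2) *
      (volume : Measure Ω).real {ω | env X ω ∈ E} ≤ 8 * (1 / 40) :=
    mul_le_mul (hexp.trans he2.le) hEle measureReal_nonneg (by norm_num)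
  linarith only [h1, h2, htilt]

end Pool.Agent.U685.IN
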