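import Pool.Agent.U874.FL.Geo2
import Pool.Agent.U874.FL.Gn

/-!
# The inner half of the shape theorem fails beyond the exponent `4 / 5`: statements of the parts
-/

set_option autoImplicit false
open MeasureTheory ProbabilityTheory Filter Set
open scoped ENNReal Topology Pointwise

namespace Pool.Agent.U685.IN

open Pool.Agent.N662.FP
open Pool.Agent.U874.FP
open U874.FL (Fd)

/-- the lattice points of the box of radius `R` -/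
def Bx (R : ℝ) (v : V) : Prop := |(v.1 : ℝ)| ≤ R ∧ |(v.2 : ℝ)| ≤ R

/-- the coordinate in the direction `(p, q)` -/
def ht (p q : ℝ) (v : V) : ℝ := p * v.1 + q * v.2

/-- the coordinate in the direction `(-q, p)` -/
def lat (p q : ℝ) (v : V) : ℝ := p * v.2 - q * v.1

/-- the weights of the edges in `F` are multiplied by `1 - ε` -/
noncomputable def sc (F : Finset (Sym2 V)) (ε : ℝ) (x : Sym2 V → ℝ) : Sym2 V → ℝ := by
  classical exact fun e => if e ∈ F then (1 - ε) * x e else x e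

/-- upper tails and mean deviations of order `(1 + μ) ^ (1 - κ)` -/
structure Tl {Ω : Type} [MeasureSpace Ω] (X : Sym2 (ℤ × ℤ) → Ω → ℝ) (μ : Seminorm ℝ (ℝ × ℝ))
    (κ A B b : ℝ) : Prop where
  up : ∀ (v : V) (u : ℝ), 0 ≤ u →
    (volume : Measure Ω).real {ω | μ (em v) + A * (1 + μ (em v)) ^ (1 - κ) + u ≤ D (env X ω) 0 v} ≤
      Real.exp (-(b * u / (1 + μ (em v)) ^ (1 - κ)))
  mean : ∀ v : V, ∫ ω, |D (env X ω) 0 v - μ (em v)| ∂(volume : Measure Ω) ≤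
    B * (1 + μ (em v)) ^ (1 - κ)

/-- the direction `(p, q)` of contact of the unit ball with a disc -/
structure Touch (μ : Seminorm ℝ (ℝ × ℝ)) (p q m : ℝ) : Prop where
  unit : p ^ 2 + q ^ 2 = 1
  pos : 0 < m
  val : μ (p, q) = m
  le : ∀ x : ℝ × ℝ, m * Real.sqrt (x.1 ^ 2 + x.2 ^ 2) ≤ μ x

/-- uniform upper tails in a box -/
def S_UT : Prop := ∀ (Ω : Type) [MeasureSpace Ω] [IsProbabilityMeasure (volume : Measure Ω)]
  (X : Sym2 (ℤ × ℤ) → Ω → ℝ), Iid X → ∀ (μ : Seminorm ℝ (ℝ × ℝ)), (∀ x, μ x = 0 → x = 0) →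
  ∀ κ A B b δ K : ℝ, 0 < κ → κ < 1 → 0 < A → 0 < b → 0 < δ → 0 < K → Tl X μ κ A B b →
  ∀ η : ℝ, 0 < η → ∀ᶠ t : ℝ in atTop,
    (volume : Measure Ω).real {ω | ¬ ∀ a c : V, Bx (K * t) a → Bx (K * t) c →
      D (env X ω) a c < μ (em (c - a)) + t ^ (1 - κ + δ)} ≤ η

/-- passage times to far points are at least linear -/
def S_FAR : Prop := ∀ (Ω : Type) [MeasureSpace Ω] [IsProbabilityMeasure (volume : Measure Ω)]
  (X : Sym2 (ℤ × ℤ) → Ω → ℝ), Iid X → ∀ η : ℝ, 0 < η → ∀ᶠ R : ℝ in atTop,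
    (volume : Measure Ω).real {ω | ¬ ∀ z : V, ¬ Bx R z → R / 25 < D (env X ω) 0 z} ≤ η

/-- no fast passage to the points of the middle part with large lateral coordinate -/
def S_CRX : Prop := ∀ (Ω : Type) [MeasureSpace Ω] [IsProbabilityMeasure (volume : Measure Ω)]
  (X : Sym2 (ℤ × ℤ) → Ω → ℝ), Iid X → ∀ (μ : Seminorm ℝ (ℝ × ℝ)), (∀ x, μ x = 0 → x = 0) →
  ∀ κ A B b δ K : ℝ, 0 < κ → κ < 1 → 0 < δ → δ < κ / 2 → 1 ≤ K → Tl X μ κ A B b →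
  ∀ p q m : ℝ, Touch μ p q m → ∀ η : ℝ, 0 < η → ∀ᶠ t : ℝ in atTop,
    ∀ (a : V) (s : ℤ), Bx (K * t) a → (s = 1 ∨ s = -1) →
    (volume : Measure Ω).real {ω | (∀ c d : V, Bx (100 * K * t) c → Bx (100 * K * t) d →
        D (env X ω) c d < μ (em (d - c)) + t ^ (1 - κ + δ)) ∧
      ¬ ∀ z : V, Bx (K * t) z → t / 5 ≤ ht p q z → ht p q z ≤ 4 * t / 5 →
        t ^ (1 - κ / 2 + δ) ≤ |lat p q z| →
        m * ht p q z + t ^ (1 - κ + δ) < D (env X ω) a (a + s • z)} ≤ η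

/-- the law of the environment changes little when the weights of the edges in `F` are multiplied
by `1 - ε` and `ε ^ 2 * F.card` is bounded -/
def S_TILT : Prop := ∀ (Ω : Type) [MeasureSpace Ω] [IsProbabilityMeasure (volume : Measure Ω)]
  (X : Sym2 (ℤ × ℤ) → Ω → ℝ), Iid X → ∀ (F : Finset (Sym2 V)) (ε : ℝ), 0 ≤ ε → ε ≤ 1 / 2 →
  ∀ E : Set (Sym2 V → ℝ), MeasurableSet E →
    ((volume : Measure Ω).real {ω | sc F ε (env X ω) ∈ E}) ^ 2 ≤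
      Real.exp (2 * F.card * ε ^ 2) * (volume : Measure Ω).real {ω | env X ω ∈ E}

/-- all paths from `0` to `v` with passage time at most `D x 0 v + 1` meet the middle part only in
points of `S` -/
def Conf (x : Sym2 V → ℝ) (p q h1 h2 : ℝ) (v : V) (S : Finset V) : Prop :=
  ∀ (n : ℕ) (P : ℕ → V), P 0 = 0 → P n = v →
    (∀ i < n, |(P (i + 1)).1 - (P i).1| + |(P (i + 1)).2 - (P i).2| = 1) →
    ∑ i ∈ Finset.range n, x s(P i, P (i + 1)) ≤ D x 0 v + 1 →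
    ∀ i ≤ n, h1 ≤ ht p q (P i) → ht p q (P i) ≤ h2 → P i ∈ S

/-- the middle part of a path -/
def S_PATH2 : Prop := ∀ (x : Sym2 V → ℝ), (∀ e, 0 ≤ x e) → ∀ p q : ℝ, p ^ 2 + q ^ 2 = 1 →
  ∀ (v : V) (h1 h2 : ℝ) (S : Finset V), 0 < h1 → h1 + 2 < h2 → h2 ≤ ht p q v →
  Conf x p q h1 h2 v S → ∀ ε : ℝ, 0 ≤ ε → ε ≤ 1 →
  ∃ a ∈ S, ∃ b ∈ S, h1 ≤ ht p q a ∧ ht p q a ≤ h1 + 1 ∧ h2 - 1 ≤ ht p q b ∧ ht p q b ≤ h2 ∧
    D (sc (Fd S) ε x) 0 v ≤ D x 0 v + 1 - ε * D x a b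

/-- the deterministic part -/
def S_DET : Prop := ∀ (μ : Seminorm ℝ (ℝ × ℝ)), (∀ x, μ x = 0 → x = 0) → ∀ p q m : ℝ,
  Touch μ p q m → ∀ κ δ : ℝ, 4 / 5 < κ → κ < 1 → 0 < δ → δ ≤ 1 / 12 →
  ∃ K : ℝ, 1 ≤ K ∧ ∀ᶠ t : ℝ in atTop, ∃ v : V, Bx (K * t) v ∧ t ≤ K * μ (em v) ∧
    μ (em v) ≤ K * t ∧ ∃ S : Finset V, (S.card : ℝ) ≤ 100 * K * (t * t ^ (1 - κ / 2 + δ)) ∧
    ∀ x : Sym2 V → ℝ, (∀ e, 0 ≤ x e) →
      (∀ c d : V, Bx (100 * K * t) c → Bx (100 * K * t) d →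
        D x c d < μ (em (d - c)) + t ^ (1 - κ + δ)) →
      μ (em v) - m / 100 * t < D x 0 v →
      (∀ z : V, ¬ Bx (K * t / 2) z → K * t / 2 / 25 < D x 0 z) →
      (∀ z : V, Bx (K * t) z → t / 5 ≤ ht p q z → ht p q z ≤ 4 * t / 5 →
        t ^ (1 - κ / 2 + δ) ≤ |lat p q z| →
        m * ht p q z + t ^ (1 - κ + δ) < D x 0 (0 + (1 : ℤ) • z)) →
      (∀ z : V, Bx (K * t) z → t / 5 ≤ ht p q z → ht p q z ≤ 4 * t / 5 →
        t ^ (1 - κ / 2 + δ) ≤ |lat p q z| →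
        m * ht p q z + t ^ (1 - κ + δ) < D x v (v + (-1 : ℤ) • z)) →
      ∀ ε : ℝ, 0 ≤ ε → ε ≤ 1 →
        D (sc (Fd S) ε x) 0 v ≤ μ (em v) + t ^ (1 - κ + δ) + 1 - ε * (m / 4 * t)

/-- the main statement: deviations of order `(1 + μ) ^ (1 - κ)` are impossible for `κ > 4 / 5` -/
def S_KEY : Prop := ∀ (Ω : Type) [MeasureSpace Ω] [IsProbabilityMeasure (volume : Measure Ω)]
  (X : Sym2 (ℤ × ℤ) → Ω → ℝ), Iid X → ∀ (μ : Seminorm ℝ (ℝ × ℝ)), (∀ x, μ x = 0 → x = 0) →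
  ∀ κ A B b : ℝ, 4 / 5 < κ → κ < 1 → 0 < A → 0 < b → ¬ Tl X μ κ A B b

end Pool.Agent.U685.IN
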